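import Pool.Agent.H546R4.Image

set_option autoImplicit false

namespace Pool.Agent.Results.MP_3938c6_al.CommutativeImage

/-- Let `k` be a field of characteristic zero (for instance the rational numbers) and `A` an
associative, not necessarily unital, `k`-algebra of dimension greater than one all of whose proper
subalgebras are nilpotent. If `A` has a nonzero commutative homomorphic image (in particular if
`A` is commutative and nonzero, or if the ideal generated by commutators is proper), then `A` is
nilpotent. -/
theorem result {k A C : Type*} [Field k] [CharZero k]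
    [NonUnitalRing A] [Module k A] [IsScalarTower k A A] [SMulCommClass k A A]
    [NonUnitalCommRing C] [Module k C] [IsScalarTower k C C] [SMulCommClass k C C] [Nontrivial C]
    (hdim : 1 < Module.rank k A)
    (hprop : ∀ B : NonUnitalSubalgebra k A, B ≠ ⊤ →
      ∃ n : ℕ, ∀ a ∈ B, ∀ l : List A, (∀ x ∈ l, x ∈ B) → l.length = n →
        l.foldl (fun x y => x * y) a = 0)
    (f : A →ₙₐ[k] C) (hf : Function.Surjective f) :
    ∃ n : ℕ, ∀ a : A, ∀ l : List A, l.length = n → l.foldl (fun x y => x * y) a = 0 := by
  obtain ⟨n, hn⟩ := Pool.Agent.H546R4.image_thm hdim hprop f hf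
  exact ⟨n, fun a l hl => hn a NonUnitalAlgebra.mem_top l
    (fun x _ => NonUnitalAlgebra.mem_top) hl⟩

end Pool.Agent.Results.MP_3938c6_al.CommutativeImage
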